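import Mathlib

/-!
# MP_512501_an, Q1 (Nikolov, Shadrin): the statement is false

The polynomial `Q(x) = (x+1)^2 (x + 479/500) (x - 61/500)^60` of degree `63` has all its zeros in
`[-1,1]`, satisfies `max_{[-1,1]} |Q| = |Q(1)|`, but
`|Q'(-993/1000)| > max (|Q'(-1)|, |Q'(1)|)`.

The bound `|Q| ≤ |Q(1)|` to the left of `61/500` is proved by `y ≤ exp (y-1)` applied to each
factor (rescaled at the approximate critical points `-49/50` and `-37/40`).
-/

namespace Pool.Agent.Results.MP_512501_an.DegreeSixtyThree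

open Polynomial

/-- `Q` is right-dominated: `max_{[-1,1]} |Q| = |Q(1)|`. -/
def RightDominated (Q : ℝ[X]) : Prop :=
  ∀ x ∈ Set.Icc (-1 : ℝ) 1, |Q.eval x| ≤ |Q.eval 1|

/-- `|Q'|` peaks at an endpoint: `max_{[-1,1]} |Q'| = max (|Q'(-1)|, |Q'(1)|)`. -/
def PeaksAtEndpoint (Q : ℝ[X]) : Prop :=
  ∀ x ∈ Set.Icc (-1 : ℝ) 1,
    |Q.derivative.eval x| ≤ max |Q.derivative.eval (-1)| |Q.derivative.eval 1|

/-- All zeros of `Q`, counted with multiplicity, are real and lie in `[-1,1]`. -/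
def ZerosInInterval (Q : ℝ[X]) : Prop :=
  Multiset.card Q.roots = Q.natDegree ∧ ∀ a ∈ Q.roots, a ∈ Set.Icc (-1 : ℝ) 1

/-- The zeros of the counterexample. -/
noncomputable def zeros : Multiset ℝ :=
  Multiset.replicate 2 (-1 : ℝ) + {(-479 / 500 : ℝ)} + Multiset.replicate 60 (61 / 500 : ℝ)

/-- The counterexample. -/
noncomputable def Q0 : ℝ[X] := (Multiset.map (fun a => X - C a) zeros).prod

theorem Q0_eq : Q0 = (X - C (-1 : ℝ)) ^ 2 * (X - C (-479 / 500 : ℝ)) *
    (X - C (61 / 500 : ℝ)) ^ 60 := by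
  unfold Q0 zeros
  rw [Multiset.map_add, Multiset.map_add, Multiset.prod_add, Multiset.prod_add,
    Multiset.map_replicate, Multiset.map_replicate, Multiset.prod_replicate,
    Multiset.prod_replicate, Multiset.map_singleton, Multiset.prod_singleton]

theorem eval_Q0 (x : ℝ) :
    Q0.eval x = (x + 1) ^ 2 * (x + 479 / 500) * (x - 61 / 500) ^ 60 := by
  rw [Q0_eq]
  simp only [eval_mul, eval_pow, eval_sub, eval_X, eval_C]
  ring

theorem eval_deriv (x : ℝ) :
    Q0.derivative.eval x =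
      2 * (x + 1) * (x + 479 / 500) * (x - 61 / 500) ^ 60 + (x + 1) ^ 2 * (x - 61 / 500) ^ 60
        + 60 * (x + 1) ^ 2 * (x + 479 / 500) * (x - 61 / 500) ^ 59 := by
  rw [Q0_eq]
  simp only [derivative_mul, derivative_pow, derivative_sub, derivative_X, derivative_C,
    eval_add, eval_mul, eval_pow, eval_sub, eval_X, eval_C, sub_zero, eval_one]
  push_cast
  ring

/-- The product of nonnegative numbers is at most the exponential of the sum of `y - 1`. -/
theorem prod_le_exp (y1 y2 y3 E : ℝ) (h1 : 0 ≤ y1) (h2 : 0 ≤ y2) (h3 : 0 ≤ y3)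
    (hE : 2 * (y1 - 1) + (y2 - 1) + 60 * (y3 - 1) ≤ E) :
    y1 ^ 2 * y2 * y3 ^ 60 ≤ Real.exp E := by
  have e1 : y1 ^ 2 ≤ Real.exp (2 * (y1 - 1)) := by
    have h : y1 ≤ Real.exp (y1 - 1) := by
      have := Real.add_one_le_exp (y1 - 1); linarith
    calc y1 ^ 2 ≤ (Real.exp (y1 - 1)) ^ 2 := pow_le_pow_left₀ h1 h 2
      _ = Real.exp (2 * (y1 - 1)) := by rw [← Real.exp_nat_mul]; norm_num
  have e2 : y2 ≤ Real.exp (y2 - 1) := by
    have := Real.add_one_le_exp (y2 - 1); linarith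
  have e3 : y3 ^ 60 ≤ Real.exp (60 * (y3 - 1)) := by
    have h : y3 ≤ Real.exp (y3 - 1) := by
      have := Real.add_one_le_exp (y3 - 1); linarith
    calc y3 ^ 60 ≤ (Real.exp (y3 - 1)) ^ 60 := pow_le_pow_left₀ h3 h 60
      _ = Real.exp (60 * (y3 - 1)) := by rw [← Real.exp_nat_mul]; norm_num
  calc y1 ^ 2 * y2 * y3 ^ 60
      ≤ Real.exp (2 * (y1 - 1)) * Real.exp (y2 - 1) * Real.exp (60 * (y3 - 1)) := by
        gcongr
    _ = Real.exp (2 * (y1 - 1) + (y2 - 1) + 60 * (y3 - 1)) := by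
        rw [← Real.exp_add, ← Real.exp_add]
    _ ≤ Real.exp E := Real.exp_le_exp.mpr hE

theorem exp_small (e : ℝ) (he : e < 1) : Real.exp e ≤ 1 / (1 - e) := by
  have h : 1 - e ≤ Real.exp (-e) := Real.one_sub_le_exp_neg e
  have hpos : 0 < 1 - e := by linarith
  rw [le_div_iff₀ hpos]
  calc Real.exp e * (1 - e) ≤ Real.exp e * Real.exp (-e) := by
        gcongr
    _ = 1 := by rw [← Real.exp_add]; simp

/-- Left region: between the zeros `-1` and `-479/500`. -/
theorem bound_left (t : ℝ) (h0 : 0 ≤ t) (h1 : t ≤ 21 / 500) :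
    t ^ 2 * (21 / 500 - t) * (561 / 500 - t) ^ 60 ≤ 4 * (979 / 500) * (439 / 500) ^ 60 := by
  have hy := prod_le_exp (50 * t) ((21 / 500 - t) * (500 / 11)) ((561 / 500 - t) * (500 / 551))
    (11 / 5000) (by linarith) (by nlinarith) (by nlinarith) (by nlinarith)
  have he := exp_small (11 / 5000) (by norm_num)
  have hK : t ^ 2 * (21 / 500 - t) * (561 / 500 - t) ^ 60 =
      ((1 / 50) ^ 2 * (11 / 500) * (551 / 500) ^ 60) *
        ((50 * t) ^ 2 * ((21 / 500 - t) * (500 / 11)) * ((561 / 500 - t) * (500 / 551)) ^ 60) := by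
    rw [mul_pow, mul_pow]
    have h551 : (551 / 500 : ℝ) ^ 60 * (500 / 551 : ℝ) ^ 60 = 1 := by
      rw [← mul_pow]; norm_num
    linear_combination (-(t ^ 2 * (21 / 500 - t) * (561 / 500 - t) ^ 60)) * h551
  rw [hK]
  calc ((1 / 50) ^ 2 * (11 / 500) * (551 / 500) ^ 60) *
        ((50 * t) ^ 2 * ((21 / 500 - t) * (500 / 11)) * ((561 / 500 - t) * (500 / 551)) ^ 60)
      ≤ ((1 / 50) ^ 2 * (11 / 500) * (551 / 500) ^ 60) * (1 / (1 - 11 / 5000)) := by
        apply mul_le_mul_of_nonneg_left (hy.trans he) (by positivity)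
    _ ≤ 4 * (979 / 500) * (439 / 500) ^ 60 := by norm_num

/-- Middle region: between the zeros `-479/500` and `61/500`. -/
theorem bound_mid (t : ℝ) (h0 : 21 / 500 ≤ t) (h1 : t ≤ 561 / 500) :
    t ^ 2 * (t - 21 / 500) * (561 / 500 - t) ^ 60 ≤ 4 * (979 / 500) * (439 / 500) ^ 60 := by
  have hy := prod_le_exp (40 / 3 * t) ((t - 21 / 500) * (1000 / 33))
    ((561 / 500 - t) * (1000 / 1047))
    (3 / 250) (by linarith) (by nlinarith) (by nlinarith) (by nlinarith)
  have he := exp_small (3 / 250) (by norm_num)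
  have hK : t ^ 2 * (t - 21 / 500) * (561 / 500 - t) ^ 60 =
      ((3 / 40) ^ 2 * (33 / 1000) * (1047 / 1000) ^ 60) *
        ((40 / 3 * t) ^ 2 * ((t - 21 / 500) * (1000 / 33)) *
          ((561 / 500 - t) * (1000 / 1047)) ^ 60) := by
    rw [mul_pow, mul_pow]
    have h1047 : (1047 / 1000 : ℝ) ^ 60 * (1000 / 1047 : ℝ) ^ 60 = 1 := by
      rw [← mul_pow]; norm_num
    linear_combination (-(t ^ 2 * (t - 21 / 500) * (561 / 500 - t) ^ 60)) * h1047
  rw [hK]
  calc ((3 / 40) ^ 2 * (33 / 1000) * (1047 / 1000) ^ 60) *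
        ((40 / 3 * t) ^ 2 * ((t - 21 / 500) * (1000 / 33)) *
          ((561 / 500 - t) * (1000 / 1047)) ^ 60)
      ≤ ((3 / 40) ^ 2 * (33 / 1000) * (1047 / 1000) ^ 60) * (1 / (1 - 3 / 250)) := by
        apply mul_le_mul_of_nonneg_left (hy.trans he) (by positivity)
    _ ≤ 4 * (979 / 500) * (439 / 500) ^ 60 := by norm_num

theorem rightDominated : RightDominated Q0 := by
  intro x hx
  obtain ⟨hx0, hx1⟩ := hx
  have hQ1 : |Q0.eval 1| = 4 * (979 / 500) * (439 / 500) ^ 60 := by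
    rw [eval_Q0, abs_of_pos (by positivity)]
    norm_num
  rw [hQ1, eval_Q0]
  have heven : (x - 61 / 500) ^ 60 = (561 / 500 - (x + 1)) ^ 60 := by
    rw [← Even.neg_pow (by decide : Even 60)]
    congr 1
    ring
  rcases le_or_gt (x + 1) (21 / 500) with h | h
  · have hb := bound_left (x + 1) (by linarith) h
    rw [heven]
    have hneg : (x + 1) ^ 2 * (x + 479 / 500) * (561 / 500 - (x + 1)) ^ 60 =
        -((x + 1) ^ 2 * (21 / 500 - (x + 1)) * (561 / 500 - (x + 1)) ^ 60) := by ring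
    rw [hneg, abs_neg, abs_of_nonneg]
    · exact hb
    · have h2 : 0 ≤ 21 / 500 - (x + 1) := by linarith
      have h3 : 0 ≤ 561 / 500 - (x + 1) := by linarith
      positivity
  · rcases le_or_gt (x + 1) (561 / 500) with h' | h'
    · have hb := bound_mid (x + 1) h.le h'
      rw [heven]
      have hpos : (x + 1) ^ 2 * (x + 479 / 500) * (561 / 500 - (x + 1)) ^ 60 =
          (x + 1) ^ 2 * ((x + 1) - 21 / 500) * (561 / 500 - (x + 1)) ^ 60 := by ring
      rw [hpos, abs_of_nonneg]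
      · exact hb
      · have h2 : 0 ≤ (x + 1) - 21 / 500 := by linarith
        have h3 : 0 ≤ 561 / 500 - (x + 1) := by linarith
        positivity
    · have h2 : 0 ≤ x + 479 / 500 := by linarith
      have h3 : 0 ≤ x - 61 / 500 := by linarith
      have h4 : 0 ≤ x + 1 := by linarith
      rw [abs_of_nonneg (mul_nonneg (mul_nonneg (pow_nonneg h4 2) h2) (pow_nonneg h3 60))]
      have e1 : (x + 1) ^ 2 ≤ 4 := by nlinarith
      have e2 : x + 479 / 500 ≤ 979 / 500 := by linarith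
      have e3 : (x - 61 / 500) ^ 60 ≤ (439 / 500) ^ 60 :=
        pow_le_pow_left₀ h3 (by linarith) 60
      exact mul_le_mul (mul_le_mul e1 e2 h2 (by norm_num)) e3 (pow_nonneg h3 60)
        (by norm_num)

theorem interior_peak : max |Q0.derivative.eval (-1)| |Q0.derivative.eval 1| <
    |Q0.derivative.eval (-993 / 1000)| := by
  rw [eval_deriv, eval_deriv, eval_deriv, max_lt_iff]
  constructor
  · norm_num
  · rw [abs_of_pos (by norm_num), abs_of_neg (by norm_num)]
    norm_num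

/-- **Disproof of Q1.**  There is a real polynomial of degree `63` with all zeros real and in
`[-1,1]` which is right-dominated, and an interior point of `[-1,1]` where `|Q'|` exceeds
`max (|Q'(-1)|, |Q'(1)|)`. -/
theorem result : ∃ Q : ℝ[X], Q.natDegree = 63 ∧ ZerosInInterval Q ∧ RightDominated Q ∧
    ¬ PeaksAtEndpoint Q ∧
    ∃ x₀ ∈ Set.Ioo (-1 : ℝ) 1,
      max |Q.derivative.eval (-1)| |Q.derivative.eval 1| < |Q.derivative.eval x₀| := by
  have hroots : Q0.roots = zeros := by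
    unfold Q0
    exact Polynomial.roots_multiset_prod_X_sub_C zeros
  have hcard : Multiset.card zeros = 63 := by
    simp [zeros]
  have hdeg : Q0.natDegree = 63 := by
    unfold Q0
    rw [Polynomial.natDegree_multiset_prod_X_sub_C_eq_card, hcard]
  have hin : (-993 / 1000 : ℝ) ∈ Set.Ioo (-1 : ℝ) 1 := by constructor <;> norm_num
  refine ⟨Q0, hdeg, ⟨by rw [hroots, hcard, hdeg], ?_⟩, rightDominated, ?_,
    -993 / 1000, hin, interior_peak⟩
  · intro a ha
    rw [hroots, zeros] at ha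
    simp only [Multiset.mem_add, Multiset.mem_replicate, Multiset.mem_singleton] at ha
    rcases ha with (⟨-, rfl⟩ | rfl) | ⟨-, rfl⟩ <;> constructor <;> norm_num
  · intro h
    exact absurd (h _ ⟨hin.1.le, hin.2.le⟩) (not_le.mpr interior_peak)

end Pool.Agent.Results.MP_512501_an.DegreeSixtyThree
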